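import Pool.Agent.Lib.MP_bb5d5a_al.Defs

namespace Pool.Agent.Lib.MP_bb5d5a_al

/-- A bijective 1-cocycle into an abelian group (the same thing as a left brace structure). -/
def HasCocycle (G : Type) [Group G] : Prop :=
  ∃ (M : Type) (_ : AddCommGroup M) (π : G ≃ M) (L : G → M →+ M),
    ∀ g h, π (g * h) = π g + L g (π h)

theorem HasCocycle.of_equiv {G H : Type} [Group G] [Group H] (e : G ≃* H) (h : HasCocycle H) :
    HasCocycle G := by
  obtain ⟨M, _, π, L, hL⟩ := h
  refine ⟨M, inferInstance, e.toEquiv.trans π, fun g => L (e g), fun g h => ?_⟩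
  simp [hL]

theorem IsIYB.of_equiv {G H : Type} [Group G] [Group H] (e : G ≃* H) (h : IsIYB H) :
    IsIYB G := by
  obtain ⟨X, h1, h2, r, hr, ⟨f⟩⟩ := h
  exact ⟨X, h1, h2, r, hr, ⟨e.trans f⟩⟩

section basic
variable {G M : Type} [Group G] [AddCommGroup M] (π : G ≃ M) (L : G → M →+ M)
  (hL : ∀ g h, π (g * h) = π g + L g (π h))
include hL

theorem coc_one : π 1 = 0 := by
  have h := hL 1 (π.symm 0)
  simp at h
  exact h.symm

theorem coc_L_one (m : M) : L 1 m = m := by
  have h := hL 1 (π.symm m)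
  simpa [coc_one π L hL] using h.symm

theorem coc_L_mul (g h : G) (m : M) : L (g * h) m = L g (L h m) := by
  have h1 := hL (g * h) (π.symm m)
  have h2 := hL g (h * π.symm m)
  rw [← mul_assoc, h1, hL g h, hL h, map_add] at h2
  simp only [Equiv.apply_symm_apply, add_assoc] at h2
  simpa using h2

end basic

/-! ### From a cocycle to a solution -/

section toSol

theorem solution_of_sigma {X : Type} (σ : X → Equiv.Perm X)
    (hσ : ∀ x z, σ x * σ ((σ x)⁻¹ z) = σ z * σ ((σ z)⁻¹ x))
    (hτ : ∀ y, Function.Bijective fun x => (σ (σ x y))⁻¹ x) :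
    IsInvNondegSolution (fun t : X × X => (σ t.1 t.2, (σ (σ t.1 t.2))⁻¹ t.1)) := by
  have hinv : (fun t : X × X => (σ t.1 t.2, (σ (σ t.1 t.2))⁻¹ t.1)) ∘
      (fun t : X × X => (σ t.1 t.2, (σ (σ t.1 t.2))⁻¹ t.1)) = id := by
    funext t
    simp
  refine ⟨?_, ?_, hinv, fun x => (σ x).bijective, hτ⟩
  · exact Function.Involutive.bijective (fun t => congrFun hinv t)
  · set r : X × X → X × X := fun t => (σ t.1 t.2, (σ (σ t.1 t.2))⁻¹ t.1) with hr
    let J : X × X × X → X × X × X := fun t => (t.1, σ t.1 t.2.1, σ t.1 (σ t.2.1 t.2.2))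
    have hJ : Function.Injective J := by
      rintro ⟨a, b, c⟩ ⟨a', b', c'⟩ h
      simp only [J, Prod.mk.injEq] at h
      obtain ⟨rfl, h2, h3⟩ := h
      have hb : b = b' := (σ a).injective h2
      subst hb
      have hc : c = c' := (σ b).injective ((σ a).injective h3)
      subst hc
      rfl
    have h12 : ∀ t, J (r12 r t) = ((J t).2.1, (J t).1, (J t).2.2) := by
      rintro ⟨a, b, c⟩
      have := congrArg (fun s : Equiv.Perm X => s c) (hσ a (σ a b))
      simp only [Equiv.Perm.coe_mul, Function.comp_apply, Equiv.Perm.coe_inv,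
        Equiv.symm_apply_apply] at this
      simp only [J, r12, hr, Equiv.Perm.coe_inv, Equiv.apply_symm_apply, this]
    have h23 : ∀ t, J (r23 r t) = ((J t).1, (J t).2.2, (J t).2.1) := by
      rintro ⟨a, b, c⟩
      simp only [J, r23, hr, Equiv.Perm.coe_inv, Equiv.apply_symm_apply]
    funext t
    apply hJ
    simp only [Function.comp_apply, h12, h23]

theorem isIYB_of_hasCocycle {G : Type} [Group G] [Finite G] (h : HasCocycle G) : IsIYB G := by
  obtain ⟨M, _, π, L, hL⟩ := h
  have hL1 := coc_L_one π L hL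
  have hLm := coc_L_mul π L hL
  let lam : G →* Equiv.Perm G :=
    MonoidHom.toHomPerm
      { toFun := fun g h => π.symm (L g (π h))
        map_one' := by funext h; simp [hL1]; rfl
        map_mul' := by
          intro a b; funext h
          change _ = π.symm (L a (π (π.symm (L b (π h)))))
          simp [hLm] }
  have hlam : ∀ g h, π (lam g h) = L g (π h) := by
    intro g h
    change π (π.symm (L g (π h))) = _
    simp
  let ρ : G →* Equiv.Perm (G ⊕ G) :=
    (Equiv.Perm.sumCongrHom G G).comp (lam.prod (MulAction.toPermHom G G))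
  have hρl : ∀ g h, ρ g (Sum.inl h) = Sum.inl (lam g h) := by intro g h; simp [ρ]
  have hρr : ∀ g h, ρ g (Sum.inr h) = Sum.inr (g * h) := by intro g h; simp [ρ]
  have hρinj : Function.Injective ρ := by
    intro a b hab
    have := congrArg (fun s : Equiv.Perm (G ⊕ G) => s (Sum.inr 1)) hab
    simpa [hρr] using this
  let e : G ⊕ G → G := Sum.elim id (fun _ => 1)
  let σ : G ⊕ G → Equiv.Perm (G ⊕ G) := fun x => ρ (e x)
  have hsum : ∀ g h, π (g * lam g⁻¹ h) = π g + π h := by
    intro g h
    rw [hL, hlam, ← hLm]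
    simp [hL1]
  have hσ : ∀ x z, σ x * σ ((σ x)⁻¹ z) = σ z * σ ((σ z)⁻¹ x) := by
    intro x z
    simp only [σ, ← map_inv, ← map_mul]
    congr 1
    rcases x with g | g <;> rcases z with h | h
    · simp only [e, Sum.elim_inl, id, hρl]
      apply π.injective
      rw [hsum, hsum, add_comm]
    · simp only [e, Sum.elim_inl, id, hρr, Sum.elim_inr, inv_one, hρl]
      simp
    · simp only [e, Sum.elim_inl, id, hρr, Sum.elim_inr, inv_one, hρl]
      simp
    · simp only [e, hρr, Sum.elim_inr]
  have hτ : ∀ y, Function.Bijective fun x => (σ (σ x y))⁻¹ x := by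
    intro y
    rw [← Finite.injective_iff_bijective]
    intro x x' hxx'
    simp only [σ, ← map_inv] at hxx'
    rcases y with h | h
    · rcases x with g | g <;> rcases x' with g' | g'
      · simp only [e, Sum.elim_inl, id, hρl, Sum.inl.injEq] at hxx'
        have key : ∀ g, lam (lam g h)⁻¹ g = (lam g h)⁻¹ * (g * h) := by
          intro g
          rw [eq_inv_mul_iff_mul_eq]
          apply π.injective
          rw [hsum, hL g h, hlam, add_comm]
        rw [key, key, ← mul_assoc, ← mul_assoc, mul_left_inj] at hxx'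
        have h2 : g⁻¹ * lam g h = g'⁻¹ * lam g' h := by
          have := congrArg (·⁻¹) hxx'
          simpa using this
        have h3 : π g⁻¹ + π h = π g'⁻¹ + π h := by
          rw [← hsum, ← hsum]
          simpa using h2
        have h4 : g⁻¹ = g'⁻¹ := π.injective (add_right_cancel h3)
        simpa using h4
      · simp only [e, Sum.elim_inl, id, hρr, Sum.elim_inr, hρl, reduceCtorEq] at hxx'
      · simp only [e, Sum.elim_inl, id, hρr, Sum.elim_inr, hρl, reduceCtorEq] at hxx'
      · simp only [e, Sum.elim_inl, id, hρr, Sum.elim_inr, hρl, map_one, Equiv.Perm.one_apply,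
          Sum.inr.injEq, mul_right_inj] at hxx'
        rw [hxx']
    · rcases x with g | g <;> rcases x' with g' | g' <;>
        simp only [e, Sum.elim_inl, id, hρr, Sum.elim_inr, inv_one, map_one,
          Equiv.Perm.one_apply] at hxx' <;> exact hxx'
  refine ⟨G ⊕ G, inferInstance, ⟨Sum.inl 1⟩, _, solution_of_sigma σ hσ hτ, ?_⟩
  have hrange : ρ.range = permGroup
      (fun t : (G ⊕ G) × (G ⊕ G) => (σ t.1 t.2, (σ (σ t.1 t.2))⁻¹ t.1)) := by
    apply le_antisymm
    · rintro _ ⟨g, rfl⟩
      exact Subgroup.subset_closure ⟨Sum.inl g, fun y => rfl⟩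
    · rw [permGroup, Subgroup.closure_le]
      rintro s ⟨x, hx⟩
      exact ⟨e x, Equiv.ext fun y => (hx y).symm⟩
  exact ⟨(MonoidHom.ofInjective hρinj).trans (MulEquiv.subgroupCongr hrange)⟩

end toSol

/-! ### From a solution to a cocycle -/

section ofSol

variable {X : Type} (σ : X → Equiv.Perm X)

/-- One step of the cocycle recursion. -/
def step (g : Equiv.Perm X) (x : X) : Equiv.Perm X := g * σ (g⁻¹ x)

theorem step_comm (hσ : ∀ x z, σ x * σ ((σ x)⁻¹ z) = σ z * σ ((σ z)⁻¹ x)) :
    RightCommutative (step σ) := by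
  constructor
  intro g x y
  simp only [step, mul_inv_rev, Equiv.Perm.coe_mul, Function.comp_apply, mul_assoc, hσ (g⁻¹ x)]

theorem hasCocycle_of_sigma [Finite X]
    (hσ : ∀ x z, σ x * σ ((σ x)⁻¹ z) = σ z * σ ((σ z)⁻¹ x)) :
    HasCocycle (Subgroup.closure (Set.range σ)) := by
  have := step_comm σ hσ
  let Λ : Multiset X → Equiv.Perm X := fun m => Multiset.foldl (step σ) 1 m
  have hfold : ∀ (m : Multiset X) (g : Equiv.Perm X),
      Multiset.foldl (step σ) g m = g * Λ (m.map ⇑g⁻¹) := by
    have aux : ∀ (m : Multiset X) (g h : Equiv.Perm X),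
        Multiset.foldl (step σ) (g * h) m = g * Multiset.foldl (step σ) h (m.map ⇑g⁻¹) := by
      intro m
      induction m using Multiset.induction_on with
      | empty => intro g h; simp
      | cons x m ih =>
        intro g h
        rw [Multiset.map_cons, Multiset.foldl_cons, Multiset.foldl_cons, ← ih]
        simp [step, mul_assoc]
    intro m g
    simpa using aux m g 1
  have hadd : ∀ m n, Λ (m + n) = Λ m * Λ (n.map ⇑(Λ m)⁻¹) := by
    intro m n
    simp only [Λ]
    rw [Multiset.foldl_add, hfold]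
  have hmul : ∀ m n, Λ (m + n.map ⇑(Λ m)) = Λ m * Λ n := by
    intro m n
    rw [hadd, Multiset.map_map]
    simp
  have hzero : Λ 0 = 1 := by simp [Λ]
  have hone : ∀ x, Λ {x} = σ x := by
    intro x
    simp only [Λ]
    rw [← Multiset.cons_zero, Multiset.foldl_cons]
    simp [step]
  set H := Subgroup.closure (Set.range σ) with hH
  have hmem : ∀ m, Λ m ∈ H := by
    have aux : ∀ (m : Multiset X) (g : Equiv.Perm X), g ∈ H → Multiset.foldl (step σ) g m ∈ H := by
      intro m
      induction m using Multiset.induction_on with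
      | empty => intro g h; simpa using h
      | cons x m ih =>
        intro g h
        rw [Multiset.foldl_cons]
        exact ih _ (H.mul_mem h (Subgroup.subset_closure ⟨_, rfl⟩))
    exact fun m => aux m 1 H.one_mem
  let S : Submonoid (Equiv.Perm X) :=
    { carrier := Set.range Λ
      mul_mem' := by
        rintro _ _ ⟨m, rfl⟩ ⟨n, rfl⟩
        exact ⟨_, hmul m n⟩
      one_mem' := ⟨0, hzero⟩ }
  have hSinv : ∀ g ∈ S, g⁻¹ ∈ S := by
    intro g hg
    have h1 : g⁻¹ = g ^ (orderOf g - 1) := by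
      have hpos : 0 < orderOf g := orderOf_pos g
      rw [inv_eq_iff_mul_eq_one, ← pow_succ', Nat.sub_add_cancel hpos, pow_orderOf_eq_one]
    rw [h1]
    exact S.pow_mem hg _
  have hsurj : ∀ g ∈ H, ∃ m, Λ m = g := by
    intro g hg
    have : g ∈ S := by
      induction hg using Subgroup.closure_induction with
      | mem x hx => obtain ⟨x, rfl⟩ := hx; exact ⟨{x}, hone x⟩
      | one => exact S.one_mem
      | mul x y _ _ hx hy => exact S.mul_mem hx hy
      | inv x _ hx => exact hSinv x hx
    exact this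
  let c : AddCon (Multiset X) :=
    { r := fun m n => Λ m = Λ n
      iseqv := ⟨fun _ => rfl, fun h => h.symm, fun h h' => h.trans h'⟩
      add' := by
        intro m m' n n' h h'
        have e1 : Λ (m + n) = Λ (m' + n) := by rw [hadd, hadd, h]
        have e2 : Λ (n + m') = Λ (n' + m') := by rw [hadd, hadd, h']
        rw [e1, add_comm m' n, e2, add_comm] }
  have hc : ∀ m n : Multiset X, (m : c.Quotient) = n ↔ Λ m = Λ n := fun m n => c.eq
  have hunit : ∀ q : c.Quotient, ∃ q' : c.Quotient, q' + q = 0 := by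
    intro q
    obtain ⟨m, rfl⟩ := c.mk'_surjective q
    obtain ⟨n, hn⟩ := hsurj _ (H.inv_mem (hmem m))
    refine ⟨((n.map ⇑(Λ m) : Multiset X) : c.Quotient), ?_⟩
    rw [add_comm]
    have : ((m + n.map ⇑(Λ m) : Multiset X) : c.Quotient) = (0 : Multiset X) := by
      rw [hc, hmul, hn, hzero, mul_inv_cancel]
    exact this
  choose ng hng using hunit
  letI : Neg c.Quotient := ⟨ng⟩
  letI : AddCommGroup c.Quotient :=
    { (inferInstance : AddCommMonoid c.Quotient) with
      neg := ng
      zsmul := zsmulRec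
      neg_add_cancel := hng }
  have hdesc : ∀ g ∈ H, ∀ n n' : Multiset X, Λ n = Λ n' → Λ (n.map ⇑g) = Λ (n'.map ⇑g) := by
    intro g hg n n' h
    obtain ⟨m, rfl⟩ := hsurj g hg
    have h1 : Λ (m + n.map ⇑(Λ m)) = Λ (m + n'.map ⇑(Λ m)) := by rw [hmul, hmul, h]
    rw [← hc] at h1 ⊢
    exact add_left_cancel (a := (m : c.Quotient)) h1
  let F : c.Quotient → H := fun q => AddCon.liftOn q (fun m => ⟨Λ m, hmem m⟩)
    (fun a b h => Subtype.ext h)
  have hF : ∀ m : Multiset X, F m = ⟨Λ m, hmem m⟩ := fun m => rfl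
  have hFbij : Function.Bijective F := by
    constructor
    · intro a b hab
      obtain ⟨m, rfl⟩ := c.mk'_surjective a
      obtain ⟨n, rfl⟩ := c.mk'_surjective b
      exact (hc m n).2 (congrArg Subtype.val hab)
    · rintro ⟨g, hg⟩
      obtain ⟨m, rfl⟩ := hsurj g hg
      exact ⟨m, rfl⟩
  let L : H → c.Quotient →+ c.Quotient := fun g =>
    c.lift (c.mk'.comp (Multiset.mapAddMonoidHom ⇑g.1))
      (fun a b h => (hc _ _).2 (hdesc g.1 g.2 a b h))
  have hLm : ∀ (g : H) (m : Multiset X), L g m = (m.map ⇑g.1 : Multiset X) := fun g m => rfl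
  refine ⟨c.Quotient, inferInstance, (Equiv.ofBijective F hFbij).symm, L, ?_⟩
  intro g h
  obtain ⟨a, rfl⟩ := hFbij.2 g
  obtain ⟨b, rfl⟩ := hFbij.2 h
  obtain ⟨m, rfl⟩ := c.mk'_surjective a
  obtain ⟨n, rfl⟩ := c.mk'_surjective b
  have hs : ∀ q, (Equiv.ofBijective F hFbij).symm (F q) = q := fun q =>
    (Equiv.ofBijective F hFbij).symm_apply_apply q
  have : F (c.mk' m) * F (c.mk' n) = F ((m + n.map ⇑(Λ m) : Multiset X) : c.Quotient) :=
    Subtype.ext (hmul m n).symm
  rw [this, hs, hs, hs]
  rfl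

theorem hasCocycle_of_isIYB {G : Type} [Group G] (h : IsIYB G) : HasCocycle G := by
  obtain ⟨X, _, _, r, hr, ⟨e⟩⟩ := h
  let σ : X → Equiv.Perm X := fun x => Equiv.ofBijective _ (hr.left_nondeg x)
  have hσ1 : ∀ x y, σ x y = (r (x, y)).1 := fun x y => rfl
  have hτ : ∀ x y, (r (x, y)).2 = (σ (σ x y))⁻¹ x := by
    intro x y
    rw [Equiv.Perm.eq_inv_iff_eq, hσ1, hσ1]
    exact congrArg Prod.fst (congrFun hr.involutive (x, y))
  have hσ : ∀ x z, σ x * σ ((σ x)⁻¹ z) = σ z * σ ((σ z)⁻¹ x) := by
    intro x z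
    obtain ⟨y, rfl⟩ := (σ x).surjective z
    ext w
    have := congrArg Prod.fst (congrFun hr.ybe (x, y, w))
    simp only [Function.comp_apply, r12, r23, ← hσ1, hτ] at this
    simpa using this.symm
  have hset : {s : Equiv.Perm X | ∃ x : X, ∀ y : X, s y = (r (x, y)).1} = Set.range σ := by
    ext s
    constructor
    · rintro ⟨x, hx⟩
      exact ⟨x, Equiv.ext fun y => (hx y).symm⟩
    · rintro ⟨x, rfl⟩
      exact ⟨x, fun y => rfl⟩
  have hpg : permGroup r = Subgroup.closure (Set.range σ) := by rw [permGroup, hset]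
  exact HasCocycle.of_equiv (e.trans (MulEquiv.subgroupCongr hpg)) (hasCocycle_of_sigma σ hσ)

end ofSol

end Pool.Agent.Lib.MP_bb5d5a_al
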