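import Mathlib

namespace Pool.Agent.Lib.MP_bb5d5a_al

/-- The map `r × id` on `X × X × X`. -/
def r12 {X : Type} (r : X × X → X × X) : X × X × X → X × X × X :=
  fun t => ((r (t.1, t.2.1)).1, (r (t.1, t.2.1)).2, t.2.2)

/-- The map `id × r` on `X × X × X`. -/
def r23 {X : Type} (r : X × X → X × X) : X × X × X → X × X × X :=
  fun t => (t.1, r t.2)

/-- `r` is an involutive non-degenerate set-theoretic solution of the Yang-Baxter equation;
here `σ x y = (r (x, y)).1` and `τ y x = (r (x, y)).2`. -/
structure IsInvNondegSolution {X : Type} (r : X × X → X × X) : Prop where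
  bijective : Function.Bijective r
  ybe : r12 r ∘ r23 r ∘ r12 r = r23 r ∘ r12 r ∘ r23 r
  involutive : r ∘ r = id
  left_nondeg : ∀ x : X, Function.Bijective fun y : X => (r (x, y)).1
  right_nondeg : ∀ y : X, Function.Bijective fun x : X => (r (x, y)).2

/-- The permutation group of a solution: the subgroup of `Sym X` generated by the `σ x`. -/
def permGroup {X : Type} (r : X × X → X × X) : Subgroup (Equiv.Perm X) :=
  Subgroup.closure {s : Equiv.Perm X | ∃ x : X, ∀ y : X, s y = (r (x, y)).1}

/-- `G` is an IYB-group: it is isomorphic to the permutation group of an involutive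
non-degenerate solution on a nonempty finite set. -/
def IsIYB (G : Type) [Group G] : Prop :=
  ∃ (X : Type) (_ : Finite X) (_ : Nonempty X) (r : X × X → X × X),
    IsInvNondegSolution r ∧ Nonempty (G ≃* permGroup r)

end Pool.Agent.Lib.MP_bb5d5a_al
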