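import Pool.Agent.Lib.MP_bb5d5a_al.Cocycle

namespace Pool.Agent.Lib.MP_bb5d5a_al

/-- The class three quotient of the free product of two cyclic groups of order three
(order 243), in signature-like coordinates. -/
@[ext]
structure P where
  a : ZMod 3
  b : ZMod 3
  c : ZMod 3
  d : ZMod 3
  e : ZMod 3
  deriving DecidableEq, Fintype

namespace P

instance : Mul P := ⟨fun g h =>
  ⟨g.a + h.a, g.b + h.b, g.c + h.c + g.a * h.b - g.b * h.a,
    g.d + h.d + g.a * (h.a * h.b + h.c) + g.a * g.a * h.b,
    g.e + h.e + g.b * (h.a * h.b - h.c) + g.b * g.b * h.a⟩⟩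
instance : One P := ⟨⟨0, 0, 0, 0, 0⟩⟩
instance : Inv P := ⟨fun g => ⟨-g.a, -g.b, -g.c, -g.d + g.a * g.c, -g.e - g.b * g.c⟩⟩

@[simp] theorem mul_a (g h : P) : (g * h).a = g.a + h.a := rfl
@[simp] theorem mul_b (g h : P) : (g * h).b = g.b + h.b := rfl
@[simp] theorem mul_c (g h : P) : (g * h).c = g.c + h.c + g.a * h.b - g.b * h.a := rfl
@[simp] theorem mul_d (g h : P) :
    (g * h).d = g.d + h.d + g.a * (h.a * h.b + h.c) + g.a * g.a * h.b := rfl
@[simp] theorem mul_e (g h : P) :
    (g * h).e = g.e + h.e + g.b * (h.a * h.b - h.c) + g.b * g.b * h.a := rfl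
@[simp] theorem one_a : (1 : P).a = 0 := rfl
@[simp] theorem one_b : (1 : P).b = 0 := rfl
@[simp] theorem one_c : (1 : P).c = 0 := rfl
@[simp] theorem one_d : (1 : P).d = 0 := rfl
@[simp] theorem one_e : (1 : P).e = 0 := rfl
@[simp] theorem inv_a (g : P) : (g⁻¹).a = -g.a := rfl
@[simp] theorem inv_b (g : P) : (g⁻¹).b = -g.b := rfl
@[simp] theorem inv_c (g : P) : (g⁻¹).c = -g.c := rfl
@[simp] theorem inv_d (g : P) : (g⁻¹).d = -g.d + g.a * g.c := rfl
@[simp] theorem inv_e (g : P) : (g⁻¹).e = -g.e - g.b * g.c := rfl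

instance : Group P := Group.ofLeftAxioms
  (fun g h k => by ext <;> simp <;> ring)
  (fun g => by ext <;> simp)
  (fun g => by ext <;> simp <;> ring)

theorem card : Nat.card P = 243 := by
  rw [Nat.card_eq_fintype_card]; decide +kernel

/-- The rotation `x ↦ y`, `y ↦ x⁻¹`. -/
def rot : MulAut P where
  toFun g := ⟨-g.b, g.a, g.c, g.e, -g.d⟩
  invFun g := ⟨g.b, -g.a, g.c, -g.e, g.d⟩
  left_inv g := by ext <;> simp
  right_inv g := by ext <;> simp
  map_mul' g h := by ext <;> simp <;> ring

/-- The reflection exchanging `x` and `y`. -/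
def swp : MulAut P where
  toFun g := ⟨g.b, g.a, -g.c, g.e, g.d⟩
  invFun g := ⟨g.b, g.a, -g.c, g.e, g.d⟩
  left_inv g := by ext <;> simp
  right_inv g := by ext <;> simp
  map_mul' g h := by ext <;> simp only [mul_a, mul_b, mul_c, mul_d, mul_e] <;> ring

theorem hasCocycle : HasCocycle P := by
  let π : P ≃ (ZMod 3 × ZMod 3 × ZMod 3 × ZMod 3 × ZMod 3) :=
    { toFun := fun g => (g.a, g.b, g.c + g.a * g.b, g.d, 2 * g.e + g.b * g.c - g.a * g.b * g.b)
      invFun := fun m => ⟨m.1, m.2.1, m.2.2.1 - m.1 * m.2.1, m.2.2.2.1,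
        2 * (m.2.2.2.2 - m.2.1 * m.2.2.1 + 2 * m.1 * m.2.1 * m.2.1)⟩
      left_inv := by decide +kernel
      right_inv := by decide +kernel }
  let L : P → (ZMod 3 × ZMod 3 × ZMod 3 × ZMod 3 × ZMod 3) →+
      (ZMod 3 × ZMod 3 × ZMod 3 × ZMod 3 × ZMod 3) := fun g =>
    { toFun := fun m => (m.1, m.2.1, m.2.2.1 + 2 * g.a * m.2.1,
        m.2.2.2.1 + g.a * m.2.2.1 + g.a * g.a * m.2.1,
        m.2.2.2.2 - g.b * m.2.2.1 + m.2.1 * (g.c - g.a * g.b))
      map_zero' := by simp
      map_add' := by intro m n; ext <;> simp <;> ring }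
  refine ⟨_, inferInstance, π, L, fun g h => ?_⟩
  ext <;> simp [π, L] <;> ring

end P

/-- The action of the dihedral group of order 8 on `P`, as a function. -/
def actFun : DihedralGroup 4 → MulAut P
  | .r i => P.rot ^ i.val
  | .sr i => P.swp * P.rot ^ i.val

theorem actFun_mul : ∀ (g h : DihedralGroup 4) (x : P), actFun (g * h) x = actFun g (actFun h x) := by
  decide +kernel

/-- The action of the dihedral group of order 8 on `P`. -/
def act : DihedralGroup 4 →* MulAut P :=
  MonoidHom.mk' actFun (fun g h => MulEquiv.ext fun x => actFun_mul g h x)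

/-- The soluble group of order 1944. -/
abbrev G : Type := P ⋊[act] DihedralGroup 4

theorem card_D : Nat.card (DihedralGroup 4) = 8 := by rw [DihedralGroup.nat_card]

theorem card_G : Nat.card G = 1944 := by rw [SemidirectProduct.card, P.card, card_D]

instance : Finite G := Nat.finite_of_card_ne_zero (by rw [card_G]; norm_num)

theorem hasCocycle_D : HasCocycle (DihedralGroup 4) := by
  let π : DihedralGroup 4 ≃ ZMod 4 × ZMod 2 :=
    { toFun := fun g => match g with
        | .r i => (i, 0)
        | .sr i => (-i, 1)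
      invFun := fun m => if m.2 = 0 then .r m.1 else .sr (-m.1)
      left_inv := by decide
      right_inv := by decide }
  let L : DihedralGroup 4 → (ZMod 4 × ZMod 2) →+ (ZMod 4 × ZMod 2) := fun g => match g with
    | .r _ => AddMonoidHom.id _
    | .sr _ => (-AddMonoidHom.id _).prodMap (AddMonoidHom.id _)
  refine ⟨_, inferInstance, π, L, ?_⟩
  decide +kernel

theorem isPGroup_P : IsPGroup 3 P := IsPGroup.of_card (n := 5) (by rw [P.card]; norm_num)

theorem isPGroup_D : IsPGroup 2 (DihedralGroup 4) :=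
  IsPGroup.of_card (n := 3) (by rw [card_D]; norm_num)

theorem solvable_G : Group.IsSolvable G := by
  have : Fact (Nat.Prime 3) := ⟨by norm_num⟩
  have h1 := isPGroup_P.isNilpotent
  have h2 := isPGroup_D.isNilpotent
  exact Group.isSolvable_of_ker_le_range (SemidirectProduct.inl : P →* G) SemidirectProduct.rightHom
    (by rw [SemidirectProduct.range_inl_eq_ker_rightHom])

theorem fact1944 (p : ℕ) : (1944 : ℕ).factorization p = if p = 2 then 3 else if p = 3 then 5 else 0 := by
  have h : (1944 : ℕ) = 2 ^ 3 * 3 ^ 5 := by norm_num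
  rw [h, Nat.factorization_mul (by norm_num) (by norm_num), Nat.Prime.factorization_pow Nat.prime_two,
    Nat.Prime.factorization_pow Nat.prime_three]
  simp only [Finsupp.coe_add, Pi.add_apply, Finsupp.single_apply]
  split_ifs <;> omega

theorem card_range_inl : Nat.card (SemidirectProduct.inl : P →* G).range = 243 := by
  rw [← P.card]
  exact (Nat.card_congr (MonoidHom.ofInjective SemidirectProduct.inl_injective).toEquiv).symm

theorem card_range_inr :
    Nat.card (SemidirectProduct.inr : DihedralGroup 4 →* G).range = 8 := by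
  rw [← card_D]
  exact (Nat.card_congr (MonoidHom.ofInjective SemidirectProduct.inr_injective).toEquiv).symm

theorem sylow_isIYB (p : ℕ) (hp : p.Prime) (S : Sylow p G) : IsIYB S := by
  have : Fact p.Prime := ⟨hp⟩
  apply isIYB_of_hasCocycle
  by_cases h2 : p = 2
  · subst h2
    let T : Sylow 2 G := Sylow.ofCard (SemidirectProduct.inr : DihedralGroup 4 →* G).range
      (by rw [card_range_inr, card_G, fact1944]; norm_num)
    exact HasCocycle.of_equiv ((Sylow.equiv S T).trans
      (MonoidHom.ofInjective SemidirectProduct.inr_injective).symm) hasCocycle_D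
  by_cases h3 : p = 3
  · subst h3
    let T : Sylow 3 G := Sylow.ofCard (SemidirectProduct.inl : P →* G).range
      (by rw [card_range_inl, card_G, fact1944]; norm_num)
    exact HasCocycle.of_equiv ((Sylow.equiv S T).trans
      (MonoidHom.ofInjective SemidirectProduct.inl_injective).symm) P.hasCocycle
  · have hc : Nat.card S = 1 := by
      rw [S.card_eq_multiplicity, card_G, fact1944, if_neg h2, if_neg h3, pow_zero]
    have hs : Subsingleton S := (Nat.card_eq_one_iff_unique.1 hc).1
    have : Unique S := uniqueOfSubsingleton 1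
    exact ⟨PUnit, inferInstance, Equiv.ofUnique _ _, fun _ => 0, fun _ _ => rfl⟩

end Pool.Agent.Lib.MP_bb5d5a_al
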