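import Pool.Agent.Lib.MP_bb5d5a_al.Group

namespace Pool.Agent.Lib.MP_bb5d5a_al

open DihedralGroup

/-- There is no additive structure on `P` making it a brace on which the dihedral group acts by
additive maps. -/
theorem no_invariant {M : Type} [AddCommGroup M] (f : P → M) (hf : Function.Injective f)
    (h1 : f 1 = 0) (hadd : ∀ a b, ∃ c, f c = f a + f b) (L : P → M →+ M)
    (hL : ∀ a b, f (a * b) = f a + L a (f b)) (T : DihedralGroup 4 → M →+ M)
    (hT : ∀ d a, f (act d a) = T d (f a)) : False := by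
  have key : ∀ (s : DihedralGroup 4) (a : P), act (r 2) a = a⁻¹ → act (r 2) a⁻¹ = a →
      act s a = a → (∀ c, act (r 2) c = c → act s c = c → c = 1) →
      f (a * (a * a)) = 3 • f a := by
    intro s a h2 h2' hs hfix
    obtain ⟨c, hc⟩ := hadd a a⁻¹
    have hc1 : c = 1 := by
      apply hfix
      · apply hf
        rw [hT, hc, map_add, ← hT, ← hT, h2, h2', add_comm]
      · apply hf
        rw [hT, hc, map_add, ← hT, ← hT, map_inv, hs]
    rw [hc1, h1] at hc
    have hneg : f a⁻¹ = -f a := (neg_eq_of_add_eq_zero_right hc.symm).symm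
    have hfa : L a (f a) = f a := by
      have := hL a a⁻¹
      rw [mul_inv_cancel, h1, hneg, map_neg] at this
      exact (add_neg_eq_zero.1 this.symm).symm
    rw [hL, hL, map_add, hfa, hfa]
    abel
  have hmul : ∀ a b, 3 • f a = 0 → 3 • f b = 0 → 3 • f (a * b) = 0 := by
    intro a b ha hb
    rw [hL, nsmul_add, ha, ← map_nsmul, hb, map_zero, add_zero]
  let x : P := ⟨1, 0, 0, 0, 0⟩
  let y : P := ⟨0, 1, 0, 0, 0⟩
  let w : P := ⟨1, 1, 0, 2, 2⟩
  have hx : 3 • f x = 0 := by
    rw [← key (sr 1) x (by decide +kernel) (by decide +kernel) (by decide +kernel)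
      (by decide +kernel), ← h1]
    exact congrArg f (by decide +kernel)
  have hy : 3 • f y = 0 := by
    rw [← key (sr 3) y (by decide +kernel) (by decide +kernel) (by decide +kernel)
      (by decide +kernel), ← h1]
    exact congrArg f (by decide +kernel)
  have hw : 3 • f w = 0 := by
    have e : w = x * (y * (x * (x * (y * (y * (x * y)))))) := by decide +kernel
    rw [e]
    exact hmul _ _ hx (hmul _ _ hy (hmul _ _ hx (hmul _ _ hx (hmul _ _ hy (hmul _ _ hy
      (hmul _ _ hx hy))))))
  rw [← key (sr 0) w (by decide +kernel) (by decide +kernel) (by decide +kernel)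
      (by decide +kernel), ← h1] at hw
  exact absurd (hf hw) (by decide +kernel)

/-- The `n`-torsion of the additive group is a subgroup of the multiplicative group. -/
def tors {H M : Type} [Group H] [AddCommGroup M] (π : H ≃ M) (L : H → M →+ M)
    (hL : ∀ g h, π (g * h) = π g + L g (π h)) (n : ℕ) : Subgroup H where
  carrier := {g | n • π g = 0}
  one_mem' := by simp [coc_one π L hL]
  mul_mem' := by
    intro a b ha hb
    simp only [Set.mem_ofPred_eq] at ha hb ⊢
    rw [hL, nsmul_add, ha, ← map_nsmul, hb, map_zero, add_zero]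
  inv_mem' := by
    intro a ha
    simp only [Set.mem_ofPred_eq] at ha ⊢
    have h := hL a⁻¹ a
    rw [inv_mul_cancel, coc_one π L hL] at h
    rw [eq_neg_of_add_eq_zero_left h.symm, neg_nsmul, ← map_nsmul, ha, map_zero, neg_zero]

theorem card_tors {H M : Type} [Group H] [Finite H] [AddCommGroup M] (π : H ≃ M) (L : H → M →+ M)
    (hL : ∀ g h, π (g * h) = π g + L g (π h)) (p k : ℕ) [Fact p.Prime] :
    ∃ j, Nat.card (tors π L hL (p ^ k)) = p ^ j := by
  have : Finite M := Finite.of_equiv H π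
  let A : AddSubgroup M := (nsmulAddMonoidHom (p ^ k)).ker
  have hA : IsPGroup p (Multiplicative A) := by
    intro g
    refine ⟨k, ?_⟩
    apply Multiplicative.toAdd.injective
    apply Subtype.ext
    have h : p ^ k • (g.toAdd : M) = 0 := g.toAdd.2
    simpa using h
  obtain ⟨j, hj⟩ := IsPGroup.iff_card.1 hA
  refine ⟨j, ?_⟩
  rw [← hj]
  exact Nat.card_congr ((π.subtypeEquiv (p := fun g => g ∈ tors π L hL (p ^ k))
    (q := fun m => m ∈ A) (fun g => Iff.rfl)).trans Multiplicative.ofAdd)

theorem pow_dvd_le (p j b : ℕ) (hp : p.Prime) (h : p ^ j ∣ 1944)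
    (hb : (1944 : ℕ).factorization p = b) : p ^ j ≤ p ^ b := by
  apply Nat.pow_le_pow_right hp.pos
  rw [← hb]
  exact (hp.pow_dvd_iff_le_factorization (by norm_num)).1 h

theorem not_hasCocycle_G : ¬ HasCocycle G := by
  rintro ⟨M, _, π, L, hL⟩
  have f2 : Fact (Nat.Prime 2) := ⟨Nat.prime_two⟩
  have f3 : Fact (Nat.Prime 3) := ⟨Nat.prime_three⟩
  have : Finite M := Finite.of_equiv G π
  have hM : Nat.card M = 1944 := by rw [← card_G]; exact (Nat.card_congr π).symm
  have hkill : ∀ m : M, 1944 • m = 0 := by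
    intro m
    rw [← hM]
    exact card_nsmul_eq_zero'
  set B2 := tors π L hL (2 ^ 3) with hB2
  set B3 := tors π L hL (3 ^ 5) with hB3
  have m2 : ∀ g, g ∈ B2 ↔ 8 • π g = 0 := fun g => Iff.rfl
  have m3 : ∀ g, g ∈ B3 ↔ 243 • π g = 0 := fun g => Iff.rfl
  obtain ⟨i, hi⟩ := card_tors π L hL 2 3
  obtain ⟨j, hj⟩ := card_tors π L hL 3 5
  rw [← hB2] at hi
  rw [← hB3] at hj
  have le2 : Nat.card B2 ≤ 8 := by
    rw [hi]
    exact pow_dvd_le 2 i 3 Nat.prime_two (by rw [← hi, ← card_G]; exact B2.card_subgroup_dvd_card)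
      (by rw [fact1944]; norm_num)
  have le3 : Nat.card B3 ≤ 243 := by
    rw [hj]
    exact pow_dvd_le 3 j 5 Nat.prime_three
      (by rw [← hj, ← card_G]; exact B3.card_subgroup_dvd_card) (by rw [fact1944]; norm_num)
  have ge : 1944 ≤ Nat.card B2 * Nat.card B3 := by
    rw [← Nat.card_prod, ← hM]
    apply Nat.card_le_card_of_surjective (fun t : B2 × B3 => π t.1 - π t.2)
    intro m
    refine ⟨(⟨π.symm (729 • m), ?_⟩, ⟨π.symm (728 • m), ?_⟩), ?_⟩
    · rw [m2, Equiv.apply_symm_apply, ← mul_nsmul, show 729 * 8 = 1944 * 3 by norm_num,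
        mul_nsmul, hkill, nsmul_zero]
    · rw [m3, Equiv.apply_symm_apply, ← mul_nsmul, show 728 * 243 = 1944 * 91 by norm_num,
        mul_nsmul, hkill, nsmul_zero]
    · simp only [Equiv.apply_symm_apply]
      rw [show 729 = 728 + 1 by norm_num, succ_nsmul]
      abel
  have c2 : Nat.card B2 = 8 := by nlinarith
  have c3 : Nat.card B3 = 243 := by nlinarith
  have hB3eq : B3 = (SemidirectProduct.inl : P →* G).range := by
    apply Subgroup.eq_of_le_of_card_ge
    · intro g hg
      rw [SemidirectProduct.range_inl_eq_ker_rightHom, MonoidHom.mem_ker]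
      have e1 : g ^ 243 = 1 := by
        have := pow_card_eq_one' (x := (⟨g, hg⟩ : B3))
        rw [c3] at this
        simpa using congrArg Subtype.val this
      have e2 : (SemidirectProduct.rightHom g) ^ 243 = 1 := by rw [← map_pow, e1, map_one]
      have e3 : (SemidirectProduct.rightHom g) ^ 8 = 1 := by
        rw [← card_D]; exact pow_card_eq_one'
      have e4 := pow_gcd_eq_one.2 ⟨e2, e3⟩
      simpa using e4
    · rw [c3, card_range_inl]
  have hnorm : B3.Normal := by
    rw [hB3eq, SemidirectProduct.range_inl_eq_ker_rightHom]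
    infer_instance
  let S : Sylow 2 G := Sylow.ofCard B2 (by rw [c2, card_G, fact1944]; norm_num)
  let T : Sylow 2 G := Sylow.ofCard (SemidirectProduct.inr : DihedralGroup 4 →* G).range
      (by rw [card_range_inr, card_G, fact1944]; norm_num)
  obtain ⟨g, hg⟩ := MulAction.exists_smul_eq G T S
  have hq : ∀ d : DihedralGroup 4, g * SemidirectProduct.inr d * g⁻¹ ∈ B2 := by
    intro d
    have h1 : (g • T : Sylow 2 G) = S := hg
    have h2 : g * SemidirectProduct.inr d * g⁻¹ ∈ (g • T : Sylow 2 G) := by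
      change _ ∈ ((g • T : Sylow 2 G) : Subgroup G)
      rw [Sylow.coe_subgroup_smul, Subgroup.mem_pointwise_smul_iff_inv_smul_mem]
      simp only [MulAut.smul_def, MulAut.conj_inv_apply]
      refine ⟨d, ?_⟩
      group
    rw [h1] at h2
    exact h2
  have hconj : ∀ q ∈ B2, ∀ x ∈ B3, π (q * x * q⁻¹) = L q (π x) := by
    intro q hq x hx
    have hx' : q * x * q⁻¹ ∈ B3 := hnorm.conj_mem x hx q
    have e1 := hL q x
    have e2 := hL (q * x * q⁻¹) q
    rw [inv_mul_cancel_right, e1] at e2
    have e3 : π (q * x * q⁻¹) - L q (π x) = π q - L (q * x * q⁻¹) (π q) := by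
      rw [sub_eq_sub_iff_add_eq_add, ← e2]
    have k3 : 243 • (π (q * x * q⁻¹) - L q (π x)) = 0 := by
      rw [nsmul_sub, (m3 _).1 hx', ← map_nsmul, (m3 _).1 hx, map_zero, sub_zero]
    have k2 : 8 • (π (q * x * q⁻¹) - L q (π x)) = 0 := by
      rw [e3, nsmul_sub, (m2 _).1 hq, ← map_nsmul, (m2 _).1 hq, map_zero, sub_zero]
    rw [← sub_eq_zero]
    generalize π (q * x * q⁻¹) - L q (π x) = m at k2 k3
    have : m = 3 • (243 • m) - 91 • (8 • m) := by
      rw [← mul_nsmul, ← mul_nsmul, show 243 * 3 = 8 * 91 + 1 by norm_num, succ_nsmul]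
      abel
    rw [this, k2, k3]
    simp
  have hin : ∀ a : P, g * SemidirectProduct.inl a * g⁻¹ ∈ B3 := fun a =>
    hnorm.conj_mem _ (hB3eq ▸ ⟨a, rfl⟩) g
  refine no_invariant (fun a => π (g * SemidirectProduct.inl a * g⁻¹)) ?_ ?_ ?_
    (fun a => L (g * SemidirectProduct.inl a * g⁻¹)) ?_
    (fun d => L (g * SemidirectProduct.inr d * g⁻¹)) ?_
  · intro a b hab
    have := π.injective hab
    simpa using this
  · simp [coc_one π L hL]
  · intro a b
    have h1 : π.symm (π (g * SemidirectProduct.inl a * g⁻¹) +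
        π (g * SemidirectProduct.inl b * g⁻¹)) ∈ B3 := by
      rw [m3, Equiv.apply_symm_apply, nsmul_add, (m3 _).1 (hin a), (m3 _).1 (hin b), add_zero]
    have h2 := hnorm.conj_mem _ h1 g⁻¹
    rw [hB3eq] at h2
    obtain ⟨c, hc⟩ := h2
    refine ⟨c, ?_⟩
    simp only [hc]
    simp [mul_assoc]
  · intro a b
    rw [← hL, map_mul (SemidirectProduct.inl : P →* G)]
    congr 1
    group
  · intro d a
    rw [← hconj _ (hq d) _ (hin a), SemidirectProduct.inl_aut, map_inv]
    congr 1
    group

end Pool.Agent.Lib.MP_bb5d5a_al
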